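import Pool.Agent.H317.GH.Stm

set_option autoImplicit false

namespace Pool.Agent.H736.GH

open Matrix Pool.Agent.H317.GR Pool.Agent.H317.GH

variable {n : ℕ}

/-- `M` vanishes on the diagonals `j - i < k` -/
def Dg (k : ℕ) (M : Matrix (Fin n) (Fin n) ℤ) : Prop := ∀ i j : Fin n, (j : ℕ) < i + k → M i j = 0

theorem Dg.add {k : ℕ} {M N : Matrix (Fin n) (Fin n) ℤ} (hM : Dg k M) (hN : Dg k N) :
    Dg k (M + N) := fun i j h => by
  rw [Matrix.add_apply, hM i j h, hN i j h, add_zero]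

theorem Dg.sub {k : ℕ} {M N : Matrix (Fin n) (Fin n) ℤ} (hM : Dg k M) (hN : Dg k N) :
    Dg k (M - N) := fun i j h => by
  rw [Matrix.sub_apply, hM i j h, hN i j h, sub_zero]

theorem Dg.mul {k l : ℕ} {M N : Matrix (Fin n) (Fin n) ℤ} (hM : Dg k M) (hN : Dg l N) :
    Dg (k + l) (M * N) := fun i j h => by
  rw [Matrix.mul_apply]
  refine Finset.sum_eq_zero fun m _ => ?_
  by_cases h1 : (m : ℕ) < i + k
  · rw [hM i m h1, zero_mul]
  · rw [hN m j (by omega), mul_zero]

theorem Dg.mono {k l : ℕ} {M : Matrix (Fin n) (Fin n) ℤ} (h : k ≤ l) (hM : Dg l M) : Dg k M :=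
  fun i j hij => hM i j (by omega)

theorem Dg.one : Dg 0 (1 : Matrix (Fin n) (Fin n) ℤ) := fun i j h =>
  Matrix.one_apply_ne (fun e => by rw [e] at h; omega)

theorem Dg.of_sub {k : ℕ} {M : Matrix (Fin n) (Fin n) ℤ} (h : Dg k (M - 1)) : Dg 0 M := by
  have h1 := (h.mono (Nat.zero_le k)).add Dg.one
  rwa [sub_add_cancel] at h1

theorem Dg.zero (k : ℕ) : Dg k (0 : Matrix (Fin n) (Fin n) ℤ) := fun _ _ _ => rfl

/-- products of elements close to the identity -/
theorem mul_close {k : ℕ} {M N : Matrix (Fin n) (Fin n) ℤ} (hM : Dg k (M - 1))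
    (hN : Dg k (N - 1)) : Dg k (M * N - 1) := by
  have h1 : M * N - 1 = (M - 1) * (N - 1) + (M - 1) + (N - 1) := by noncomm_ring
  rw [h1]
  exact (((hM.mul hN).mono (by omega)).add hM).add hN

/-- the filtration of the unitriangular group -/
def Fk (k : ℕ) : Subgroup (SZ n) where
  carrier := {A | Dg k ((A : Matrix (Fin n) (Fin n) ℤ) - 1) ∧
    Dg k (((A⁻¹ : SZ n) : Matrix (Fin n) (Fin n) ℤ) - 1)}
  one_mem' := by
    constructor
    · rw [Matrix.SpecialLinearGroup.coe_one, sub_self]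
      exact Dg.zero k
    · rw [inv_one, Matrix.SpecialLinearGroup.coe_one, sub_self]
      exact Dg.zero k
  mul_mem' := by
    rintro A B ⟨h1, h2⟩ ⟨h3, h4⟩
    constructor
    · rw [Matrix.SpecialLinearGroup.coe_mul]
      exact mul_close h1 h3
    · rw [_root_.mul_inv_rev, Matrix.SpecialLinearGroup.coe_mul]
      exact mul_close h4 h2
  inv_mem' := by
    rintro A ⟨h1, h2⟩
    refine ⟨h2, ?_⟩
    rwa [inv_inv]

theorem mem_Fk {k : ℕ} {A : SZ n} : A ∈ Fk k ↔ Dg k ((A : Matrix (Fin n) (Fin n) ℤ) - 1) ∧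
    Dg k (((A⁻¹ : SZ n) : Matrix (Fin n) (Fin n) ℤ) - 1) := Iff.rfl

/-- commutators move one diagonal further -/
theorem comm_close {k : ℕ} {A B : SZ n} (hA : A ∈ Fk k) (hB : B ∈ Fk 1) :
    Dg (k + 1) (((A * B * A⁻¹ * B⁻¹ : SZ n) : Matrix (Fin n) (Fin n) ℤ) - 1) ∧
    Dg (k + 1) (((B * A * B⁻¹ * A⁻¹ : SZ n) : Matrix (Fin n) (Fin n) ℤ) - 1) := by
  obtain ⟨a1, a2⟩ := mem_Fk.1 hA
  obtain ⟨b1, b2⟩ := mem_Fk.1 hB
  have c1 : (A : Matrix (Fin n) (Fin n) ℤ) * ((A⁻¹ : SZ n) : Matrix (Fin n) (Fin n) ℤ) = 1 := by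
    rw [← Matrix.SpecialLinearGroup.coe_mul, mul_inv_cancel, Matrix.SpecialLinearGroup.coe_one]
  have c2 : (B : Matrix (Fin n) (Fin n) ℤ) * ((B⁻¹ : SZ n) : Matrix (Fin n) (Fin n) ℤ) = 1 := by
    rw [← Matrix.SpecialLinearGroup.coe_mul, mul_inv_cancel, Matrix.SpecialLinearGroup.coe_one]
  simp only [Matrix.SpecialLinearGroup.coe_mul]
  generalize (A : Matrix (Fin n) (Fin n) ℤ) = P at *
  generalize (B : Matrix (Fin n) (Fin n) ℤ) = R at *
  generalize ((A⁻¹ : SZ n) : Matrix (Fin n) (Fin n) ℤ) = P' at *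
  generalize ((B⁻¹ : SZ n) : Matrix (Fin n) (Fin n) ℤ) = R' at *
  have e0 : P * R - R * P = (P - 1) * (R - 1) - (R - 1) * (P - 1) := by noncomm_ring
  have d0 : Dg (k + 1) (P * R - R * P) := by
    rw [e0]
    exact (a1.mul b1).sub ((b1.mul a1).mono (by omega))
  have d1 : Dg (k + 1) (R * P - P * R) := by
    have : R * P - P * R = 0 - (P * R - R * P) := by abel
    rw [this]
    exact (Dg.zero _).sub d0
  constructor
  · have e1 : P * R * P' * R' - 1 = (P * R - R * P) * (P' * R') := by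
      have h1 : R * P * (P' * R') = 1 := by
        calc R * P * (P' * R') = R * (P * P') * R' := by simp only [mul_assoc]
          _ = 1 := by rw [c1, mul_one, c2]
      rw [sub_mul, h1]
      simp only [mul_assoc]
    rw [e1]
    have h2 := d0.mul (a2.of_sub.mul b2.of_sub)
    exact h2
  · have e1 : R * P * R' * P' - 1 = (R * P - P * R) * (R' * P') := by
      have h1 : P * R * (R' * P') = 1 := by
        calc P * R * (R' * P') = P * (R * R') * P' := by simp only [mul_assoc]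
          _ = 1 := by rw [c2, mul_one, c1]
      rw [sub_mul, h1]
      simp only [mul_assoc]
    rw [e1]
    exact d1.mul (b2.of_sub.mul a2.of_sub)

theorem comm_le (k : ℕ) : ⁅(Fk k : Subgroup (SZ n)), (Fk 1 : Subgroup (SZ n))⁆ ≤ Fk (k + 1) := by
  rw [Subgroup.commutator_le]
  intro A hA B hB
  obtain ⟨h1, h2⟩ := comm_close hA hB
  refine mem_Fk.2 ⟨?_, ?_⟩
  · rw [commutatorElement_def]
    exact h1
  · rw [commutatorElement_inv, commutatorElement_def]
    exact h2

theorem lcs_le (k : ℕ) : (Fk 1 : Subgroup (SZ n)).lowerCentralSeries k ≤ Fk (k + 1) := by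
  induction k with
  | zero => exact le_refl _
  | succ k ih =>
    rw [Subgroup.lowerCentralSeries_succ]
    exact (Subgroup.commutator_mono ih le_rfl).trans (comm_le (k + 1))

theorem Fk_n : (Fk n : Subgroup (SZ n)) = ⊥ := by
  rw [eq_bot_iff]
  intro A hA
  rw [Subgroup.mem_bot]
  have h := (mem_Fk.1 hA).1
  apply Matrix.SpecialLinearGroup.ext
  intro i j
  have h1 := h i j (by omega)
  rw [Matrix.sub_apply, sub_eq_zero] at h1
  rw [h1, Matrix.SpecialLinearGroup.coe_one]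

/-- the transvection `1 + c E_ij` -/
def tv (i j : Fin n) (h : i ≠ j) (c : ℤ) : SZ n := ⟨transvection i j c, det_transvection_of_ne i j h c⟩

theorem coe_tv (i j : Fin n) (h : i ≠ j) (c : ℤ) :
    ((tv i j h c : SZ n) : Matrix (Fin n) (Fin n) ℤ) = transvection i j c := rfl

theorem tv_mul (i j : Fin n) (h : i ≠ j) (c d : ℤ) : tv i j h c * tv i j h d = tv i j h (c + d) := by
  apply Subtype.ext
  rw [Matrix.SpecialLinearGroup.coe_mul, coe_tv, coe_tv, coe_tv]
  exact transvection_mul_transvection_same i j h c d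

theorem tv_zero (i j : Fin n) (h : i ≠ j) : tv i j h 0 = 1 := by
  apply Subtype.ext
  rw [coe_tv, Matrix.SpecialLinearGroup.coe_one]
  exact transvection_zero i j

theorem tv_inv (i j : Fin n) (h : i ≠ j) (c : ℤ) : (tv i j h c)⁻¹ = tv i j h (-c) := by
  rw [inv_eq_iff_mul_eq_one, tv_mul, add_neg_cancel, tv_zero]

theorem tv_pow (i j : Fin n) (h : i ≠ j) (m : ℕ) : tv i j h 1 ^ m = tv i j h m := by
  induction m with
  | zero => rw [pow_zero, Nat.cast_zero, tv_zero]
  | succ m ih => rw [pow_succ, ih, tv_mul, Nat.cast_add, Nat.cast_one]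

theorem Dg_tv (i j : Fin n) (hij : (i : ℕ) < j) (c : ℤ) : Dg 1 (transvection i j c - 1) := by
  intro a b hab
  rw [transvection, add_sub_cancel_left]
  by_cases h : i = a ∧ j = b
  · obtain ⟨rfl, rfl⟩ := h
    omega
  · exact Matrix.single_apply_of_ne _ _ _ _ _ h

theorem tv_mem (i j : Fin n) (hij : (i : ℕ) < j) (h : i ≠ j) (c : ℤ) :
    tv i j h c ∈ (Fk 1 : Subgroup (SZ n)) := by
  refine mem_Fk.2 ⟨?_, ?_⟩
  · rw [coe_tv]
    exact Dg_tv i j hij c
  · rw [tv_inv, coe_tv]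
    exact Dg_tv i j hij (-c)

theorem tv_comm (i j l : Fin n) (hij : i ≠ j) (hjl : j ≠ l) (hil : i ≠ l) :
    tv i j hij 1 * tv j l hjl 1 * (tv i j hij 1)⁻¹ * (tv j l hjl 1)⁻¹ = tv i l hil 1 := by
  have h : tv i j hij 1 * tv j l hjl 1 = tv i l hil 1 * (tv j l hjl 1 * tv i j hij 1) := by
    apply Subtype.ext
    simp only [Matrix.SpecialLinearGroup.coe_mul, coe_tv, transvection]
    have s1 : Matrix.single i j (1 : ℤ) * Matrix.single j l (1 : ℤ) = Matrix.single i l (1 : ℤ) := by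
      rw [Matrix.single_mul_single_same, mul_one]
    have s2 : Matrix.single j l (1 : ℤ) * Matrix.single i j (1 : ℤ) = 0 :=
      Matrix.single_mul_single_of_ne _ _ _ _ hil.symm _
    have s4 : Matrix.single i l (1 : ℤ) * Matrix.single i j (1 : ℤ) = 0 :=
      Matrix.single_mul_single_of_ne _ _ _ _ hil.symm _
    have s3 : Matrix.single i l (1 : ℤ) * Matrix.single j l (1 : ℤ) = 0 :=
      Matrix.single_mul_single_of_ne _ _ _ _ hjl.symm _
    simp only [mul_add, add_mul, one_mul, mul_one, s1, s2, s3, s4, add_zero]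
    abel
  rw [h]
  group

theorem tv_lcs (h0 : 0 < n) (k : ℕ) : ∀ hk : k + 1 < n,
    tv (⟨0, h0⟩ : Fin n) ⟨k + 1, hk⟩ (by intro e; have := congrArg Fin.val e; simp at this) 1 ∈
      (Fk 1 : Subgroup (SZ n)).lowerCentralSeries k := by
  induction k with
  | zero =>
    intro hk
    exact tv_mem _ _ (by simp) _ _
  | succ k ih =>
    intro hk
    have hk' : k + 1 < n := by omega
    have h1 := ih hk'
    rw [Subgroup.lowerCentralSeries_succ]
    have hjl : (⟨k + 1, hk'⟩ : Fin n) ≠ ⟨k + 1 + 1, hk⟩ := by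
      intro e
      have := congrArg Fin.val e
      simp at this
    have h2 := Subgroup.commutator_mem_commutator h1 (tv_mem (⟨k + 1, hk'⟩ : Fin n)
      ⟨k + 1 + 1, hk⟩ (by simp) hjl 1)
    rwa [commutatorElement_def, tv_comm] at h2

theorem unt : S_UNT := by
  intro n hn
  refine ⟨Fk 1, ?_, ?_⟩
  · have h1 := lcs_le (n := n) (n - 1)
    have h2 : n - 1 + 1 = n := by omega
    rw [h2, Fk_n] at h1
    exact eq_bot_iff.2 h1
  · have h0 : 0 < n := by omega
    have hk : n - 2 + 1 < n := by omega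
    refine ⟨_, tv_lcs h0 (n - 2) hk, ?_⟩
    intro hfin
    obtain ⟨m, hm, h⟩ := isOfFinOrder_iff_pow_eq_one.1 hfin
    rw [tv_pow] at h
    have hne : (⟨0, h0⟩ : Fin n) ≠ ⟨n - 2 + 1, hk⟩ := by
      intro e
      have := congrArg Fin.val e
      simp at this
    have h2 := congrArg (fun A : SZ n => (A : Matrix (Fin n) (Fin n) ℤ) ⟨0, h0⟩ ⟨n - 2 + 1, hk⟩) h
    simp only [coe_tv, transvection, Matrix.SpecialLinearGroup.coe_one, Matrix.add_apply,
      Matrix.one_apply_ne hne, Matrix.single_apply_same, zero_add] at h2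
    have : m = 0 := by exact_mod_cast h2
    omega

end Pool.Agent.H736.GH
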